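import Pool.Agent.W_61ad90_h32.Stmt61
import Pool.Agent.W_MP_315f31_lc.Thm

/-!
# MP_61ad90_lc : fine normal ultrafilters on another set
-/

universe u
open Cardinal Set

namespace SQR

theorem isFNU_map {κ : Cardinal.{u}} {A B : Type u} (e : A ≃ B) {U : Ultrafilter (Set A)}
    (h : IsFNU κ U) : DCT.IsFNU κ (U.map fun x : Set A => e '' x) where
  small := by
    rw [Ultrafilter.mem_map]
    refine Filter.mem_of_superset h.small fun x hx => ?_
    change #(e '' x : Set B) < κ
    rw [Cardinal.mk_image_eq e.injective]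
    exact hx
  fine b := by
    rw [Ultrafilter.mem_map]
    refine Filter.mem_of_superset (h.fine (e.symm b)) fun x hx => ?_
    exact ⟨e.symm b, hx, e.apply_symm_apply b⟩
  complete S hS hU := by
    rw [Ultrafilter.mem_map, preimage_sInter]
    have h1 := h.complete ((fun s => (fun x : Set A => e '' x) ⁻¹' s) '' S)
      (lt_of_le_of_lt Cardinal.mk_image_le hS) (by
        rintro _ ⟨s, hs, rfl⟩
        exact Ultrafilter.mem_map.1 (hU s hs))
    rwa [sInter_image] at h1
  normal f hf := by
    rw [Ultrafilter.mem_map] at hf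
    obtain ⟨a, ha⟩ := h.normal (fun x => e.symm (f (e '' x))) (by
      refine Filter.mem_of_superset hf fun x hx => ?_
      obtain ⟨a, ha, hax⟩ := hx
      change e.symm (f (e '' x)) ∈ x
      rw [← hax, e.symm_apply_apply]
      exact ha)
    refine ⟨e a, ?_⟩
    rw [Ultrafilter.mem_map]
    refine Filter.mem_of_superset ha fun x hx => ?_
    change f (e '' x) = e a
    rw [← hx, e.apply_symm_apply]

/-- the ultrafilter on the disjoint sum of `κ`, `κ⁺`, `κ⁺⁺` -/
theorem IsSC2.sum {κ : Cardinal.{u}} (h : IsSC2 κ) : ∃ U : Ultrafilter (Set (κ.ord.ToType ⊕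
    ((Order.succ κ).ord.ToType ⊕ (Order.succ (Order.succ κ)).ord.ToType))), DCT.IsFNU κ U := by
  obtain ⟨hin, A, U, hA, hU⟩ := h
  have h1 : #A = #(κ.ord.ToType ⊕
      ((Order.succ κ).ord.ToType ⊕ (Order.succ (Order.succ κ)).ord.ToType)) := by
    have h0 : ℵ₀ ≤ κ := hin.aleph0_lt.le
    have h1 : κ ≤ Order.succ (Order.succ κ) := (Order.le_succ κ).trans (Order.le_succ _)
    rw [hA, mk_sum, mk_sum]
    simp only [mk_toType, card_ord, lift_id]
    rw [Cardinal.add_eq_right (h0.trans (Order.le_succ κ) |>.trans (Order.le_succ _)) (Order.le_succ _),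
      Cardinal.add_eq_right (h0.trans h1) h1]
  obtain ⟨e⟩ := Cardinal.eq.1 h1
  exact ⟨_, isFNU_map e hU⟩

end SQR
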