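import Mathlib

/-!
# MP_61ad90_lc : what the native part delivers about the forcing `Col(ω₁, ν⁺) × Col(ν⁺⁺, κ)`

`W` is a well-order of type `ω₁`, `K2`, `K3`, `K4` are well-orders of types `ν⁺⁺`, `κ⁺`, `κ⁺⁺`, `D` is the
regular open algebra of the forcing.
-/

universe u

open Cardinal Set

namespace Pool.Agent.W_61ad90

/-- `g : A → B → D` is a name of a partial function from `A` to `B` whose values include all `x < i`. -/
def CovN {A B D : Type u} [LinearOrder B] [CompleteBooleanAlgebra D] (g : A → B → D) (i : B) : Prop :=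
  (∀ a x y, x ≠ y → g a x ⊓ g a y = ⊥) ∧ ∀ x < i, (⨆ a, g a x) = ⊤

/-- The properties of the forcing. -/
structure Core61 (W K2 K3 K4 : Type u) [LinearOrder W] [LinearOrder K2] [LinearOrder K3]
    [LinearOrder K4] (D : Type u) [CompleteBooleanAlgebra D] : Prop where
  /-- every proper initial segment of `W` is countable -/
  w_ctbl : ∀ w : W, (Iio w).Countable
  /-- `W` is uncountable -/
  w_unc : ¬ Countable W
  /-- `K2` is not empty -/
  ne2 : Nonempty K2
  /-- no new `ω`-sequences -/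
  dist : ∀ (A : Type u) (f : ℕ → A → D), (∀ n, (⨆ a, f n a) = ⊤) → ∀ c : D, c ≠ ⊥ →
    ∃ (b : D) (g : ℕ → A), b ≠ ⊥ ∧ b ≤ c ∧ ∀ n, b ≤ f n (g n)
  /-- functions from `ω₁` to `K2` are bounded -/
  bdd : ∀ f : W → K2 → D, (∀ w, (⨆ x, f w x) = ⊤) → ∀ c : D, c ≠ ⊥ →
    ∃ (b : D) (δ : K2), b ≠ ⊥ ∧ b ≤ c ∧ ∀ w, b ≤ ⨆ x : Iio δ, f w x
  /-- the elements of `K2` are images of `ω₁` -/
  coll2 : ∀ i : K2, ∃ g : W → K2 → D, CovN g i
  /-- the elements of `K3` are images of `K2` -/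
  coll3 : ∀ i : K3, ∃ g : K2 → K3 → D, CovN g i
  /-- the elements of `K4` are images of `K3` -/
  coll4 : ∀ i : K4, ∃ g : K3 → K4 → D, CovN g i
  /-- the powerset of an infinite well-order `A` is an image of a well-order all of whose proper
  initial segments are images of `A` -/
  gch : ∀ (A : Type u) [LinearOrder A] [WellFoundedLT A], Infinite A →
    ∃ (B : Type u) (_ : LinearOrder B) (_ : WellFoundedLT B) (F : B → A → D),
      (∀ g : A → D, ∀ c : D, c ≠ ⊥ → ∃ (b : D) (i : B), b ≠ ⊥ ∧ b ≤ c ∧ ∀ a, b ⊓ g a = b ⊓ F i a) ∧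
      ∀ i : B, ∃ G : A → B → D, CovN G i
  /-- every colouring of the countable subsets of `K4` with colours in `K2` is bounded on the countable
  subsets of some set of size `K2` -/
  rel : ∀ F : (ℕ → K4) → K2 → D, (∀ e, Function.Injective e → (⨆ x, F e x) = ⊤) →
    ∀ c : D, c ≠ ⊥ → ∃ (b : D) (H : Set K4) (δ : K2), b ≠ ⊥ ∧ b ≤ c ∧ Nonempty (H ≃ K2) ∧
      ∀ e, Function.Injective e → (∀ n, e n ∈ H) → b ≤ ⨆ x : Iio δ, F e x

end Pool.Agent.W_61ad90
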