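import Pool.Agent.W_61ad90_h32.Card61

set_option autoImplicit false

/-!
# MP_61ad90_lc : the Cantor-Bernstein theorem in a model of ZFC, powersets
-/

namespace SQR
open HESR
universe u
variable {N : Type u} {E : N → N → Prop}

section
variable (hZ : IsZFC E)
include hZ

/-- The Cantor-Bernstein theorem. -/
theorem eqp_of_inj {R S : N → N → Prop} (hR : Def2 E R) (hS : Def2 E S) {a b : N}
    (hR1 : ∀ x, E x a → ∃ y, E y b ∧ R x y) (hR2 : ∀ x y y', R x y → R x y' → y = y')
    (hR3 : ∀ x x' y, R x y → R x' y → x = x')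
    (hS1 : ∀ x, E x b → ∃ y, E y a ∧ S x y) (hS2 : ∀ x y y', S x y → S x y' → y = y')
    (hS3 : ∀ x x' y, S x y → S x' y → x = x') : Eqp E a b := by
  obtain ⟨q, hq⟩ := hZ.exPow a
  -- the closed subsets of `a`
  let C : N → Prop := fun X => (∀ x, E x a → (¬ ∃ y, E y b ∧ S y x) → E x X) ∧
    ∀ x y z, E x X → R x y → E y b → S y z → E z X
  obtain ⟨X0, hX0⟩ := hZ.sep1 (P := fun x => ∀ X, E X q → (∀ x, E x a → (¬ ∃ y, E y b ∧ S y x) → E x X) →
    (∀ x y z, E x X → R x y → E y b → S y z → E z X) → E x X) (by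
      have h1 : ∀ {k : ℕ} {f g : (Fin k → N) → N}, DefFun E f → DefFun E g → Def E (fun v => R (f v) (g v)) :=
        fun hf hg => Def.sub2 hR hf hg
      have h2 : ∀ {k : ℕ} {f g : (Fin k → N) → N}, DefFun E f → DefFun E g → Def E (fun v => S (f v) (g v)) :=
        fun hf hg => Def.sub2 hS hf hg
      (repeat' (first | exact h1 (DefFun.var _) (DefFun.var _) | exact h2 (DefFun.var _) (DefFun.var _) | exact DefFun.var _ | exact DefFun.const _ | apply Def.mem | apply Def.not | apply Def.and | apply Def.imp | apply Def.ex | apply Def.all))) a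
  have hC1 : ∀ x, E x a → (¬ ∃ y, E y b ∧ S y x) → E x X0 := fun x hx hn =>
    (hX0 x).2 ⟨hx, fun X _ h1 _ => h1 x hx hn⟩
  have hC2 : ∀ x y z, E x X0 → R x y → E y b → S y z → E z X0 := by
    intro x y z hx hxy hy hyz
    obtain ⟨z', hz', hyz'⟩ := hS1 y hy
    obtain rfl := hS2 _ _ _ hyz hyz'
    exact (hX0 z).2 ⟨hz', fun X hX h1 h2 => h2 x y z (((hX0 x).1 hx).2 X hX h1 h2) hxy hy hyz⟩
  have hC3 : ∀ y z, E y b → S y z → E z X0 → ∃ x, E x X0 ∧ R x y := by
    intro y z hy hyz hz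
    by_contra hc
    push Not at hc
    obtain ⟨X1, hX1⟩ := hZ.sep1 (P := fun x => ¬ x = z) (by (repeat' (first | assumption | (apply DefFun.comp; assumption) | apply Cov.df | apply IsSC.df | apply Eqp.df | apply IsBij.df | apply IsLC.df | apply Instr.df | apply IsNum.df | apply IsEval.df | apply IsAsg.df | apply IsProg.df | apply IsStr.df | apply IsTyp.df | apply IsCard.df | apply HasRank.df | apply IsV.df | apply IsVseq.df | apply Maps.df | apply IsFun.df | apply App.df | apply IsOmega.df | apply IsNat.df | apply IsZS.df | apply IsOrd.df | apply IsTr.df | apply IsSucc.df | apply IsPair.df | apply IsUPair.df | apply IsEmp.df | apply Sub.df | exact DefFun.var _ | exact DefFun.const _ | apply Def.eq | apply Def.mem | apply Def.not | apply Def.and | apply Def.or | apply Def.iff | apply Def.imp | apply Def.exU | apply Def.ex | apply Def.all))) X0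
    have h1 : E X1 q := (hq X1).2 fun x hx => ((hX0 x).1 ((hX1 x).1 hx).1).1
    have h2 := ((hX0 z).1 hz).2 X1 h1 (fun x hx hn => (hX1 x).2 ⟨hC1 x hx hn, by
      rintro rfl
      exact hn ⟨y, hy, hyz⟩⟩) (fun x y' z' hx hxy hy' hyz' => (hX1 z').2
        ⟨hC2 x y' z' ((hX1 x).1 hx).1 hxy hy' hyz', by
          rintro rfl
          obtain rfl := hS3 _ _ _ hyz hyz'
          exact hc x ((hX1 x).1 hx).1 hxy⟩)
    exact ((hX1 z).1 h2).2 rfl
  -- the bijection
  have h1 : ∀ {k : ℕ} {f g : (Fin k → N) → N}, DefFun E f → DefFun E g → Def E (fun v => R (f v) (g v)) :=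
    fun hf hg => Def.sub2 hR hf hg
  have h2 : ∀ {k : ℕ} {f g : (Fin k → N) → N}, DefFun E f → DefFun E g → Def E (fun v => S (f v) (g v)) :=
    fun hf hg => Def.sub2 hS hf hg
  obtain ⟨h, hh, happ⟩ := hZ.exFun (R := fun x y => (E x X0 ∧ R x y) ∨ (¬ E x X0 ∧ E y b ∧ S y x)) (by
      (repeat' (first | exact h1 (DefFun.var _) (DefFun.var _) | exact h2 (DefFun.var _) (DefFun.var _) | exact DefFun.var _ | exact DefFun.const _ | apply Def.or | apply Def.mem | apply Def.not | apply Def.and | apply Def.imp | apply Def.ex | apply Def.all))) a (by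
    intro x hx
    by_cases hx0 : E x X0
    · obtain ⟨y, hy, hxy⟩ := hR1 x hx
      refine ⟨y, Or.inl ⟨hx0, hxy⟩, ?_⟩
      rintro y' (⟨_, hy'⟩ | ⟨hn, _⟩)
      · exact hR2 _ _ _ hy' hxy
      · exact (hn hx0).elim
    · have h3 : ∃ y, E y b ∧ S y x := by
        by_contra hn
        exact hx0 (hC1 x hx hn)
      obtain ⟨y, hy, hyx⟩ := h3
      refine ⟨y, Or.inr ⟨hx0, hy, hyx⟩, ?_⟩
      rintro y' (⟨hn, _⟩ | ⟨_, _, hy'⟩)
      · exact (hx0 hn).elim
      · exact hS3 _ _ _ hy' hyx)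
  have hval : ∀ x y, App E h x y → (E x X0 ∧ R x y) ∨ (¬ E x X0 ∧ E y b ∧ S y x) := fun x y hxy =>
    (happ x (hh.dom hZ hxy) y).1 hxy
  refine ⟨h, ⟨hh, fun x y hxy => ?_⟩, ?_, ?_⟩
  · rcases hval x y hxy with ⟨_, h3⟩ | ⟨_, h3, _⟩
    · obtain ⟨y', hy', h4⟩ := hR1 x (hh.dom hZ hxy)
      rwa [hR2 _ _ _ h3 h4]
    · exact h3
  · have key : ∀ x x' y, E x X0 → R x y → ¬ E x' X0 → E y b → ¬ S y x' := fun x x' y hx hxy hx' hy hs =>
      hx' (hC2 x y x' hx hxy hy hs)
    intro x x' y hxy hxy'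
    rcases hval x y hxy with ⟨h3, h4⟩ | ⟨h3, h4, h5⟩
    · rcases hval x' y hxy' with ⟨h6, h7⟩ | ⟨h6, h7, h8⟩
      · exact hR3 _ _ _ h4 h7
      · exact (key x x' y h3 h4 h6 h7 h8).elim
    · rcases hval x' y hxy' with ⟨h6, h7⟩ | ⟨h6, h7, h8⟩
      · exact (key x' x y h6 h7 h3 h4 h5).elim
      · exact hS2 _ _ _ h5 h8
  · intro y hy
    obtain ⟨z, hz, hyz⟩ := hS1 y hy
    by_cases hz0 : E z X0
    · obtain ⟨x, hx, hxy⟩ := hC3 y z hy hyz hz0
      exact ⟨x, (happ x ((hX0 x).1 hx).1 y).2 (Or.inl ⟨hx, hxy⟩)⟩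
    · exact ⟨z, (happ z hz y).2 (Or.inr ⟨hz0, hy, hyz⟩)⟩

/-- Cantor's theorem. -/
theorem not_cov_pow {a P : N} (hP : ∀ x, E x P ↔ Sub E x a) : ¬ Cov E a P := by
  rintro ⟨f, hf, hs⟩
  obtain ⟨d, hd⟩ := hZ.sep1 (P := fun x => ¬ ∃ y, App E f x y ∧ E x y) (by (repeat' (first | assumption | (apply DefFun.comp; assumption) | apply Cov.df | apply IsSC.df | apply Eqp.df | apply IsBij.df | apply IsLC.df | apply Instr.df | apply IsNum.df | apply IsEval.df | apply IsAsg.df | apply IsProg.df | apply IsStr.df | apply IsTyp.df | apply IsCard.df | apply HasRank.df | apply IsV.df | apply IsVseq.df | apply Maps.df | apply IsFun.df | apply App.df | apply IsOmega.df | apply IsNat.df | apply IsZS.df | apply IsOrd.df | apply IsTr.df | apply IsSucc.df | apply IsPair.df | apply IsUPair.df | apply IsEmp.df | apply Sub.df | exact DefFun.var _ | exact DefFun.const _ | apply Def.eq | apply Def.mem | apply Def.not | apply Def.and | apply Def.or | apply Def.iff | apply Def.imp |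 apply Def.exU | apply Def.ex | apply Def.all))) a
  obtain ⟨x, hx⟩ := hs d ((hP d).2 fun z hz => ((hd z).1 hz).1)
  by_cases h : E x d
  · exact ((hd x).1 h).2 ⟨d, hx, h⟩
  · exact h ((hd x).2 ⟨hf.dom hZ hx, fun ⟨y, h1, h2⟩ => h (hf.val hZ hx h1 ▸ h2)⟩)

/-- A set covered by `μ⁺` but not by `μ` has the cardinality `μ⁺`. -/
theorem eqp_of_cov {μ ν P : N} (hμ : IsOrd E μ) (hν : IsSC E μ ν) (h1 : Cov E ν P) (h2 : ¬ Cov E μ P) :
    Eqp E P ν := by
  obtain ⟨F, hF, hFs⟩ := h1
  obtain ⟨δ, g, hδ, hg, hga, hginj⟩ := hZ.exWO P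
  have hδν : Sub E ν δ := by
    rcases hδ.tri hZ hν.1.1 with h3 | h3 | h3
    · exact (h2 ((((hν.hart hZ hμ).2 δ hδ).1 h3).trans hZ ⟨g, hg, fun y hy => (hga y).1 hy⟩)).elim
    · rw [h3]
      exact fun z hz => hz
    · exact fun z hz => hδ.trans h3 hz
  refine eqp_of_inj hZ (R := fun y x => E y P ∧ App E F x y ∧ ∀ z, E z x → ¬ App E F z y)
    (S := fun x y => E x ν ∧ App E g x y) (by (repeat' (first | assumption | (apply DefFun.comp; assumption) | apply Cov.df | apply IsSC.df | apply Eqp.df | apply IsBij.df | apply IsLC.df | apply Instr.df | apply IsNum.df | apply IsEval.df | apply IsAsg.df | apply IsProg.df | apply IsStr.df | apply IsTyp.df | apply IsCard.df | apply HasRank.df | apply IsV.df | apply IsVseq.df | apply Maps.df | apply IsFun.df | apply App.df | apply IsOmega.df | apply IsNat.df | apply IsZS.df | apply IsOrd.df | apply IsTr.df | apply IsSucc.df | apply IsPair.df | apply IsUPair.df | apply IsEmp.df | apply Sub.df | exact DefFun.var _ | exact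 DefFun.const _ | apply Def.eq | apply Def.mem | apply Def.not | apply Def.and | apply Def.or | apply Def.iff | apply Def.imp | apply Def.exU | apply Def.ex | apply Def.all))) (by (repeat' (first | assumption | (apply DefFun.comp; assumption) | apply Cov.df | apply IsSC.df | apply Eqp.df | apply IsBij.df | apply IsLC.df | apply Instr.df | apply IsNum.df | apply IsEval.df | apply IsAsg.df | apply IsProg.df | apply IsStr.df | apply IsTyp.df | apply IsCard.df | apply HasRank.df | apply IsV.df | apply IsVseq.df | apply Maps.df | apply IsFun.df | apply App.df | apply IsOmega.df | apply IsNat.df | apply IsZS.df | apply IsOrd.df | apply IsTr.df | apply IsSucc.df | apply IsPair.df | apply IsUPair.df | apply IsEmp.df | apply Sub.df | exact DefFun.var _ | exact DefFun.const _ | apply Def.eq | apply Def.mem | apply Def.not | apply Def.and | apply Def.or | apply Def.iff | apply Def.imp | apply Def.exU | apply Def.ex | apply Def.all))) ?_ ?_ ?_ ?_ ?_ ?_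
  · intro y hy
    obtain ⟨x, hx⟩ := hFs y hy
    obtain ⟨x', hx', h3, h4⟩ := (hν.1.1.mem (hF.dom hZ hx)).least hZ (P := fun x => App E F x y)
      (by (repeat' (first | assumption | (apply DefFun.comp; assumption) | apply Cov.df | apply IsSC.df | apply Eqp.df | apply IsBij.df | apply IsLC.df | apply Instr.df | apply IsNum.df | apply IsEval.df | apply IsAsg.df | apply IsProg.df | apply IsStr.df | apply IsTyp.df | apply IsCard.df | apply HasRank.df | apply IsV.df | apply IsVseq.df | apply Maps.df | apply IsFun.df | apply App.df | apply IsOmega.df | apply IsNat.df | apply IsZS.df | apply IsOrd.df | apply IsTr.df | apply IsSucc.df | apply IsPair.df | apply IsUPair.df | apply IsEmp.df | apply Sub.df | exact DefFun.var _ | exact DefFun.const _ | apply Def.eq | apply Def.mem | apply Def.not | apply Def.and | apply Def.or | apply Def.iff | apply Def.imp | apply Def.exU | apply Def.ex | apply Def.all))) hx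
    exact ⟨x', hF.dom hZ h3, hy, h3, h4⟩
  · rintro y x x' ⟨_, h3, h4⟩ ⟨_, h5, h6⟩
    rcases (hν.1.1.mem (hF.dom hZ h3)).tri hZ (hν.1.1.mem (hF.dom hZ h5)) with h7 | h7 | h7
    · exact (h6 x h7 h3).elim
    · exact h7
    · exact (h4 x' h7 h5).elim
  · rintro y y' x ⟨_, h3, _⟩ ⟨_, h5, _⟩
    exact hF.val hZ h3 h5
  · intro x hx
    obtain ⟨y, hy⟩ := hg.ex (hδν x hx)
    exact ⟨y, (hga y).2 ⟨x, hy⟩, hx, hy⟩
  · rintro x y y' ⟨_, h3⟩ ⟨_, h5⟩
    exact hg.val hZ h3 h5
  · rintro x x' y ⟨_, h3⟩ ⟨_, h5⟩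
    exact hginj _ _ _ h3 h5

/-- `GCH` from coverings -/
theorem gch_of_cov (h : ∀ w μ ν P, IsOmega E w → IsCard E μ → (μ = w ∨ E w μ) → IsSC E μ ν →
    (∀ x, E x P ↔ Sub E x μ) → Cov E ν P) : GCH E :=
  fun w μ ν P hw hμ hwμ hν hP => eqp_of_cov hZ hμ.1 hν (h w μ ν P hw hμ hwμ hν hP) (not_cov_pow hZ hP)

end

end SQR
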