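import Pool.Agent.W_61ad90_h32.Stmt61
import Pool.Agent.W_MP_315f31_lc.C.Om

set_option autoImplicit false

/-!
# MP_61ad90_lc : successor cardinals, `ℵ_ω` and restrictions of colourings in a model of ZFC
-/

namespace SQR
open HESR
universe u
variable {N : Type u} {E : N → N → Prop}

section
variable (hZ : IsZFC E)
include hZ

/-- the Hartogs number of an ordinal is the successor cardinal -/
theorem IsSC.ofHart {μ ν : N} (hμ : IsOrd E μ) (h : IsHart E μ ν) : IsSC E μ ν := by
  refine ⟨⟨h.1, fun β f hβ hf hon => ?_⟩, (h.2 μ hμ).2 (Cov.refl hZ μ), fun ρ hρ hc => ?_⟩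
  · exact h.not_cov hZ (((h.2 β (h.1.mem hβ)).1 hβ).trans hZ ⟨f, hf, hon⟩)
  · rcases hμ.tri hZ hc.1 with h1 | h1 | h1
    · exact (hc.not_cov h1 ((h.2 ρ hc.1).1 hρ)).elim
    · exact Or.inr h1.symm
    · exact Or.inl h1

/-- every ordinal has a successor cardinal -/
theorem exSC {μ : N} (hμ : IsOrd E μ) : ∃ ν, IsSC E μ ν := by
  obtain ⟨ν, hν⟩ := hZ.exHart μ
  exact ⟨ν, IsSC.ofHart hZ hμ hν⟩

theorem IsSC.uniq {μ ν ν' : N} (h : IsSC E μ ν) (h' : IsSC E μ ν') : ν = ν' := by
  rcases h.1.1.tri hZ h'.1.1 with h1 | h1 | h1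
  · rcases h'.2.2 ν h1 h.1 with h2 | h2
    · exact (hZ.asymm h2 h.2.1).elim
    · exact (hZ.irrefl μ (h2 ▸ h.2.1)).elim
  · exact h1
  · rcases h.2.2 ν' h1 h'.1 with h2 | h2
    · exact (hZ.asymm h2 h'.2.1).elim
    · exact (hZ.irrefl μ (h2 ▸ h'.2.1)).elim

/-- ordinals covered by `μ` belong to the successor cardinal -/
theorem IsSC.mem_of_cov {μ ν α : N} (h : IsSC E μ ν) (hα : IsOrd E α) (hc : Cov E μ α) : E α ν := by
  rcases hα.tri hZ h.1.1 with h1 | h1 | h1
  · exact h1
  · exact (h.1.not_cov h.2.1 (h1 ▸ hc)).elim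
  · exact (h.1.not_cov h.2.1 (hc.mono fun z hz => hα.trans h1 hz)).elim

/-- the elements of the successor cardinal of an ordinal are covered -/
theorem IsSC.hart {μ ν : N} (hμ : IsOrd E μ) (h : IsSC E μ ν) : IsHart E μ ν := by
  obtain ⟨ν', hν'⟩ := hZ.exHart μ
  rw [h.uniq hZ (IsSC.ofHart hZ hμ hν')]
  exact hν'

/-- an ordinal all of whose elements are covered by `μ` is a subset of the successor cardinal -/
theorem IsSC.sub_of_cov {μ ν A : N} (h : IsSC E μ ν) (hA : IsOrd E A) (hc : ∀ α, E α A → Cov E μ α) :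
    Sub E A ν := fun α hα => h.mem_of_cov hZ (hA.mem hα) (hc α hα)

/-- an uncountable limit cardinal is closed under successor cardinals -/
theorem IsLC.sc {A μ ν : N} (h : IsLC E A) (hμ : E μ A) (hν : IsSC E μ ν) : E ν A := by
  obtain ⟨ν', h1, h2, h3⟩ := h.2.2 μ hμ
  rcases hν.1.1.tri hZ h2.1 with h4 | h4 | h4
  · exact h.1.trans h1 h4
  · exact h4 ▸ h1
  · rcases hν.2.2 ν' h4 h2 with h5 | h5
    · exact (hZ.asymm h5 h3).elim
    · exact (hZ.irrefl μ (h5 ▸ h3)).elim

/-- the relation is inherited by subsets -/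
theorem NegRel.mono {A' A B : N} (hs : Sub E A' A) (h : NegRel E A B) : NegRel E A' B := by
  obtain ⟨f, ⟨w, Y, hw, hY, hf⟩, hH⟩ := h
  obtain ⟨Y', hY'⟩ := hZ.sep1 (P := fun y => Sub E y A') (by (repeat' (first | assumption | (apply DefFun.comp; assumption) | apply Cov.df | apply IsSC.df | apply Eqp.df | apply IsBij.df | apply IsLC.df | apply Instr.df | apply IsNum.df | apply IsEval.df | apply IsAsg.df | apply IsProg.df | apply IsStr.df | apply IsTyp.df | apply IsCard.df | apply HasRank.df | apply IsV.df | apply IsVseq.df | apply Maps.df | apply IsFun.df | apply App.df | apply IsOmega.df | apply IsNat.df | apply IsZS.df | apply IsOrd.df | apply IsTr.df | apply IsSucc.df | apply IsPair.df | apply IsUPair.df | apply IsEmp.df | apply Sub.df | exact DefFun.var _ | exact DefFun.const _ | apply Def.eq | apply Def.mem | apply Def.not | apply Def.and | apply Def.or | apply Def.iff | apply Def.imp | apply Def.exU | apply Def.ex | apply Def.all))) Y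
  have hY2 : ∀ y, E y Y' ↔ Sub E y A' ∧ Eqp E w y := by
    intro y
    rw [hY', hY]
    exact ⟨fun h => ⟨h.2, h.1.2⟩, fun h => ⟨⟨fun z hz => hs z (h.1 z hz), h.2⟩, h.1⟩⟩
  obtain ⟨g, hg, happ⟩ := hZ.exFun (R := fun x y => App E f x y) (by (repeat' (first | assumption | (apply DefFun.comp; assumption) | apply Cov.df | apply IsSC.df | apply Eqp.df | apply IsBij.df | apply IsLC.df | apply Instr.df | apply IsNum.df | apply IsEval.df | apply IsAsg.df | apply IsProg.df | apply IsStr.df | apply IsTyp.df | apply IsCard.df | apply HasRank.df | apply IsV.df | apply IsVseq.df | apply Maps.df | apply IsFun.df | apply App.df | apply IsOmega.df | apply IsNat.df | apply IsZS.df | apply IsOrd.df | apply IsTr.df | apply IsSucc.df | apply IsPair.df | apply IsUPair.df | apply IsEmp.df | apply Sub.df | exact DefFun.var _ | exact DefFun.const _ | apply Def.eq | apply Def.mem | apply Def.not | apply Def.and | apply Def.or | apply Def.iff | apply Def.imp | apply Def.exU | apply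 Def.ex | apply Def.all))) Y' (fun x hx => hf.1.2 x
    ((hY' x).1 hx).1)
  refine ⟨g, ⟨w, Y', hw, hY2, hg, fun x y hxy => hf.2 x y ((happ x (hg.dom hZ hxy) y).1 hxy)⟩, ?_⟩
  intro H hHA hBH c hc
  obtain ⟨y, hy, hyc⟩ := hH H (fun z hz => hs z (hHA z hz)) hBH c hc
  have h1 : E y Y' := (hY' y).2 ⟨hf.1.dom hZ hyc, fun z hz => hHA z (hy z hz)⟩
  exact ⟨y, hy, (happ y h1 c).2 hyc⟩

/-- The main reduction: the failure of the relation for an ordinal `K` below `ω₄`. -/
theorem pos_of {w w1 w2 w3 w4 K : N} (hw : IsOmega E w) (h1 : IsSC E w w1) (h2 : IsSC E w1 w2)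
    (h3 : IsSC E w2 w3) (h4 : IsSC E w3 w4) (hK : Sub E K w4) (hn : ¬ NegRel E K w2) :
    PosRel E ∧ PosRel4 E := by
  constructor
  · intro v v1 v2 a A hv hv1 hv2 ha hA hneg
    obtain rfl := hw.uniq hZ hv
    obtain rfl := h1.uniq hZ hv1
    obtain rfl := h2.uniq hZ hv2
    apply hn
    refine hneg.mono hZ fun z hz => ?_
    obtain ⟨v, hv, hva⟩ := ha.1.2.1
    obtain rfl := hw.uniq hZ hv
    have m1 := ha.1.sc hZ hva h1
    have m2 := ha.1.sc hZ m1 h2
    have m3 := ha.1.sc hZ m2 h3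
    have m4 := ha.1.sc hZ m3 h4
    exact hA.1.1.trans hA.2.1 (ha.1.1.trans m4 (hK z hz))
  · intro v v1 v2 v3 v4 hv hv1 hv2 hv3 hv4 hneg
    obtain rfl := hw.uniq hZ hv
    obtain rfl := h1.uniq hZ hv1
    obtain rfl := h2.uniq hZ hv2
    obtain rfl := h3.uniq hZ hv3
    obtain rfl := h4.uniq hZ hv4
    exact hn (hneg.mono hZ hK)

end

end SQR
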