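import Pool.Agent.W_315f31_h40.Cards
import Pool.Agent.W_61ad90_h32.Core61
import Pool.Agent.W_61ad90_h32.Card61

/-!
# MP_61ad90_lc : the cardinals of the model

In the quotients of the Boolean-valued sets over an algebra with the properties `Core61` the names
`chkT W`, `chkT K2` are `ω₁`, `ω₂`, and `chkT K4` is a subset of `ω₄`.
-/

universe u

open Cardinal Set HESR IM.BSet SQR
open IM (BSet)

namespace Pool.Agent.W_61ad90

open BVM

section
variable {A B D : Type u} [LinearOrder A] [WellFoundedLT A] [LinearOrder B] [WellFoundedLT B]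
  [CompleteBooleanAlgebra D]

/-- a covering name -/
theorem cov_of_covN {j : A → BSet D} (hj : ∀ a a', a ≠ a' → beq (j a) (j a') = ⊥) {i : B}
    (h : ∃ g : A → B → D, CovN g i) {lam : D → Prop} (hl : IsUF lam) :
    Cov (E hl) (val hl (nm j)) (val hl (chk i : BSet D)) := by
  rw [chk_eq i]
  obtain ⟨g, hg1, hg2⟩ := h
  refine cov_names (c := (⊤ : D)) (fun (a : A) (x : Iio i) => g a x.1) ?_ ?_ hl hl.top
  · intro a a' x y
    by_cases ha : a = a'
    · subst ha
      by_cases hxy : x = y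
      · subst hxy
        rw [beq_refl (chk x.1)]
        exact le_top
      · rw [hg1 a x.1 y.1 (fun h => hxy (Subtype.ext h))]
        simp
    · rw [hj a a' ha]
      simp
  · intro x
    exact (hg2 x.1 x.2).ge

/-- the elements of `B` are covered by `A` -/
theorem cov_of_coll (h : ∀ i : B, ∃ g : A → B → D, CovN g i) {lam : D → Prop} (hl : IsUF lam) :
    ∀ x, E hl x (val hl (chkT B)) → Cov (E hl) (val hl (chkT A : BSet D)) x := by
  refine forall_chkT (P := fun lam hl x => Cov (E hl) (val hl (chkT A)) x)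
    (TD.cov1 (Tm.const _) (Tm.var 0)) (a := ⊤) ?_ hl.top
  intro i lam hl _
  exact cov_of_covN (fun a a' h => beq_chk_ne h) (h i) hl

end

variable {W K2 K3 K4 D : Type u} [LinearOrder W] [LinearOrder K2] [LinearOrder K3]
  [LinearOrder K4] [WellFoundedLT W] [WellFoundedLT K2] [WellFoundedLT K3] [WellFoundedLT K4]
  [CompleteBooleanAlgebra D]

omit [WellFoundedLT K2] [WellFoundedLT K3] [WellFoundedLT K4] in
/-- The elements of `ω₁` are countable. -/
theorem cov_W (h : Core61 W K2 K3 K4 D) {lam : D → Prop} (hl : IsUF lam) :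
    ∀ x, E hl x (val hl (chkT W)) → Cov (E hl) (val hl omB) x := by
  refine forall_chkT (P := fun lam hl x => Cov (E hl) (val hl omB) x)
    (TD.cov1 (Tm.const _) (Tm.var 0)) (a := ⊤) ?_ hl.top
  intro w lam hl _
  rw [chk_eq w]
  have : Countable (Iio w) := (h.w_ctbl w).to_subtype
  exact cov_ctbl _ hl

omit [WellFoundedLT K2] [WellFoundedLT K3] [WellFoundedLT K4] in
/-- `ω₁` is not countable. -/
theorem not_cov_W (h : Core61 W K2 K3 K4 D) {lam : D → Prop} (hl : IsUF lam) :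
    ¬ Cov (E hl) (val hl omB) (val hl (chkT W : BSet D)) := by
  intro hc
  have hT : TD1 (D := D) fun lam hl f => IsFun (E hl) f (val hl omB) ∧
      ∀ y, E hl y (val hl (chkT W)) → ∃ x, E hl x (val hl omB) ∧ App (E hl) f x y := by
    refine TD.and (TD.isFun (Tm.var 0) (Tm.const _)) ?_
    refine TD.all (P := fun lam hl y v => E hl y (val hl (chkT W)) →
      ∃ x, E hl x (val hl omB) ∧ App (E hl) (v 0) x y) ?_
    refine TD.imp (TD.mem (Tm.var 0) (Tm.const _)) ?_
    exact TD.ex (P := fun lam hl x v => E hl x (val hl omB) ∧ App (E hl) (v 1) x (v 0))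
      (TD.and (TD.mem (Tm.var 0) (Tm.const _)) (TD.app (Tm.var 2) (Tm.var 0) (Tm.var 1)))
  obtain ⟨F, hF⟩ := TD.exists_name hT
  set c : D := TD.b1 hT F with hcdef
  have hlc : lam c := by
    obtain ⟨f, hf, hf'⟩ := hc
    refine (TD.b1_iff hT).1 (hF lam hl f ⟨hf, fun y hy => ?_⟩)
    obtain ⟨x, hx⟩ := hf' y hy
    exact ⟨x, hf.dom (zfc hl) hx, hx⟩
  have hc0 : c ≠ ⊥ := fun h0 => hl.bot (h0 ▸ hlc)
  have hA : ∀ x : BSet D, TD1 (D := D) fun lam hl z => App (E hl) (val hl F) z (val hl x) :=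
    fun x => TD.app (Tm.const _) (Tm.var 0) (Tm.const _)
  let g : ℕ → W → D := fun n w => TD.b1 (hA (chk w)) (natB n)
  obtain ⟨b, e, hb0, hbc, hbe⟩ := h.dist (Option W)
    (fun n o => o.elim (⨆ w, g n w)ᶜ (fun w => g n w)) (by
      intro n
      rw [iSup_option]
      exact compl_sup_eq_top) c hc0
  obtain ⟨w, hw⟩ : ∃ w : W, ∀ n, e n ≠ some w := by
    by_contra hcon
    push Not at hcon
    apply h.w_unc
    choose k hk using hcon
    refine Function.Injective.countable (f := k) fun x y hxy => ?_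
    have h1 := hk x
    rw [hxy, hk y] at h1
    exact (Option.some.inj h1).symm
  -- `b` forces that `w` is a value
  have h1 : b ≤ ⨆ n, g n w := by
    rw [le_iff_ultra]
    intro lam hl hlam
    have h2 := (TD.b1_iff hT (hl := hl)).2 (hl.mono hbc hlam)
    exact (exists_omB_iff (hA (chk w))).1 (h2.2 _ (E_chkT w))
  apply hb0
  rw [← le_bot_iff]
  have h2 : ∀ n, b ⊓ g n w ≤ ⊥ := by
    intro n
    have h3 := hbe n
    rcases hen : e n with _ | w'
    · rw [hen] at h3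
      change b ≤ (⨆ w, g n w)ᶜ at h3
      refine (inf_le_inf h3 (le_iSup (g n) w)).trans ?_
      rw [compl_inf_eq_bot]
    · rw [hen] at h3
      change b ≤ g n w' at h3
      have hne : w' ≠ w := by
        rintro rfl
        exact hw n hen
      rw [le_iff_ultra]
      intro lam hl hlam
      obtain ⟨h6, h7⟩ := hl.inf_iff.1 hlam
      have h8 := (TD.b1_iff hT (hl := hl)).2 (hl.mono hbc h6)
      have h9 := h8.1.val (zfc hl) ((TD.b1_iff (hA (chk w')) (hl := hl)).2 (hl.mono h3 h6))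
        ((TD.b1_iff (hA (chk w)) (hl := hl)).2 h7)
      exact (hne (val_chk_inj.1 h9)).elim
  calc b = b ⊓ ⨆ n, g n w := (inf_eq_left.2 h1).symm
    _ = ⨆ n, b ⊓ g n w := inf_iSup_eq _ _
    _ ≤ ⊥ := iSup_le h2

omit [WellFoundedLT K3] [WellFoundedLT K4] in
/-- `K2` is not covered by `ω₁`. -/
theorem not_cov_K2 (h : Core61 W K2 K3 K4 D) {lam : D → Prop} (hl : IsUF lam) :
    ¬ Cov (E hl) (val hl (chkT W : BSet D)) (val hl (chkT K2)) := by
  intro hc
  have hT : TD1 (D := D) fun lam hl f => IsFun (E hl) f (val hl (chkT W)) ∧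
      ∀ y, E hl y (val hl (chkT K2)) → ∃ x, E hl x (val hl (chkT W)) ∧ App (E hl) f x y := by
    refine TD.and (TD.isFun (Tm.var 0) (Tm.const _)) ?_
    refine TD.all (P := fun lam hl y v => E hl y (val hl (chkT K2)) →
      ∃ x, E hl x (val hl (chkT W)) ∧ App (E hl) (v 0) x y) ?_
    refine TD.imp (TD.mem (Tm.var 0) (Tm.const _)) ?_
    exact TD.ex (P := fun lam hl x v => E hl x (val hl (chkT W)) ∧ App (E hl) (v 1) x (v 0))
      (TD.and (TD.mem (Tm.var 0) (Tm.const _)) (TD.app (Tm.var 2) (Tm.var 0) (Tm.var 1)))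
  obtain ⟨F, hF⟩ := TD.exists_name hT
  set c : D := TD.b1 hT F with hcdef
  have hlc : lam c := by
    obtain ⟨f, hf, hf'⟩ := hc
    refine (TD.b1_iff hT).1 (hF lam hl f ⟨hf, fun y hy => ?_⟩)
    obtain ⟨x, hx⟩ := hf' y hy
    exact ⟨x, hf.dom (zfc hl) hx, hx⟩
  have hc0 : c ≠ ⊥ := fun h0 => hl.bot (h0 ▸ hlc)
  have hA : ∀ x : BSet D, TD1 (D := D) fun lam hl z => App (E hl) (val hl F) z (val hl x) :=
    fun x => TD.app (Tm.const _) (Tm.var 0) (Tm.const _)
  let g : W → K2 → D := fun w x => TD.b1 (hA (chk x)) (chk w)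
  have hne := h.ne2
  obtain ⟨b, δ, hb0, hbc, hbδ⟩ := h.bdd (fun w x => g w x ⊔ (⨆ y, g w y)ᶜ) (by
      intro w
      rw [← iSup_sup]
      exact sup_compl_eq_top) c hc0
  -- `b` forces that `δ` is a value
  have h1 : b ≤ ⨆ w, g w δ := by
    rw [le_iff_ultra]
    intro lam hl hlam
    have h2 := (TD.b1_iff hT (hl := hl)).2 (hl.mono hbc hlam)
    exact (exists_chkT_iff (hA (chk δ))).1 (h2.2 _ (E_chkT δ))
  apply hb0
  rw [← le_bot_iff]
  have h2 : ∀ w, b ⊓ g w δ ≤ ⊥ := by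
    intro w
    have h3 : b ⊓ g w δ ≤ (⨆ x : Iio δ, g w x ⊔ (⨆ y, g w y)ᶜ) ⊓ (b ⊓ g w δ) :=
      le_inf (inf_le_left.trans (hbδ w)) le_rfl
    refine h3.trans ?_
    rw [iSup_inf_eq]
    refine iSup_le fun x => ?_
    rw [inf_sup_right]
    refine sup_le ?_ ?_
    · rw [le_iff_ultra]
      intro lam hl hlam
      obtain ⟨h4, h5⟩ := hl.inf_iff.1 hlam
      obtain ⟨h6, h7⟩ := hl.inf_iff.1 h5
      have h8 := (TD.b1_iff hT (hl := hl)).2 (hl.mono hbc h6)
      have h9 := h8.1.val (zfc hl) ((TD.b1_iff (hA (chk x.1)) (hl := hl)).2 h4)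
        ((TD.b1_iff (hA (chk δ)) (hl := hl)).2 h7)
      exact (ne_of_lt (show x.1 < δ from x.2) (val_chk_inj.1 h9)).elim
    · refine (inf_le_inf_left _ (inf_le_right.trans (le_iSup (g w) δ))).trans ?_
      rw [compl_inf_eq_bot]
  calc b = b ⊓ ⨆ w, g w δ := (inf_eq_left.2 h1).symm
    _ = ⨆ w, b ⊓ g w δ := inf_iSup_eq _ _
    _ ≤ ⊥ := iSup_le h2

omit [WellFoundedLT K2] [WellFoundedLT K3] [WellFoundedLT K4] in
theorem isSC_W (h : Core61 W K2 K3 K4 D) {lam : D → Prop} (hl : IsUF lam) :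
    IsSC (E hl) (val hl omB) (val hl (chkT W : BSet D)) :=
  IsSC.ofHart (zfc hl) isOmega_omB.1
    (IsHart.ofMid (zfc hl) isOrd_chkT (fun x hx => cov_W h hl x hx) (not_cov_W h hl))

omit [WellFoundedLT K3] [WellFoundedLT K4] in
theorem isSC_K2 (h : Core61 W K2 K3 K4 D) {lam : D → Prop} (hl : IsUF lam) :
    IsSC (E hl) (val hl (chkT W : BSet D)) (val hl (chkT K2 : BSet D)) :=
  IsSC.ofHart (zfc hl) isOrd_chkT
    (IsHart.ofMid (zfc hl) isOrd_chkT (fun x hx => cov_of_coll h.coll2 hl x hx) (not_cov_K2 h hl))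

/-- `K4` is a subset of `ω₄` -/
theorem sub_K4 (h : Core61 W K2 K3 K4 D) {lam : D → Prop} (hl : IsUF lam) {w3 w4 : X hl}
    (h3 : IsSC (E hl) (val hl (chkT K2 : BSet D)) w3) (h4 : IsSC (E hl) w3 w4) :
    Sub (E hl) (val hl (chkT K4 : BSet D)) w4 := by
  have h5 : Sub (E hl) (val hl (chkT K3 : BSet D)) w3 :=
    h3.sub_of_cov (zfc hl) isOrd_chkT fun x hx => cov_of_coll h.coll3 hl x hx
  exact h4.sub_of_cov (zfc hl) isOrd_chkT fun x hx =>
    (cov_of_coll h.coll4 hl x hx).dom_mono (zfc hl) h5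

/-- The relation in the quotients from its failure for `K4`. -/
theorem pos_X (h : Core61 W K2 K3 K4 D) {lam : D → Prop} (hl : IsUF lam)
    (hn : ¬ NegRel (E hl) (val hl (chkT K4 : BSet D)) (val hl (chkT K2 : BSet D))) :
    PosRel (E hl) ∧ PosRel4 (E hl) := by
  obtain ⟨w3, h3⟩ := exSC (zfc hl) (isOrd_chkT (hl := hl) (W := K2))
  obtain ⟨w4, h4⟩ := exSC (zfc hl) h3.1.1
  exact pos_of (zfc hl) isOmega_omB (isSC_W h hl) (isSC_K2 h hl) h3 h4 (sub_K4 h hl h3 h4) hn

end Pool.Agent.W_61ad90
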