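import Pool.Agent.W_61ad90_h32.CardX
import Pool.Agent.W_61ad90_h32.CB61

/-!
# MP_61ad90_lc : the generalized continuum hypothesis in the model
-/

universe u

open Cardinal Set HESR IM.BSet SQR
open IM (BSet)

namespace BVM

variable {D : Type u} [CompleteBooleanAlgebra D]

/-! ### The ordinals of the quotients -/

/-- initial segments of well-orders -/
theorem val_chk_initial {T T' : Type u} [LinearOrder T] [WellFoundedLT T] [LinearOrder T']
    [WellFoundedLT T'] (ι : T → T') (h1 : ∀ s t, s < t → ι s < ι t)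
    (h2 : ∀ t s', s' < ι t → ∃ s < t, ι s = s') (t : T) : ∀ {lam : D → Prop} (hl : IsUF lam),
    val hl (chk t : BSet D) = val hl (chk (ι t)) := by
  induction t using WellFoundedLT.induction with
  | ind t ih =>
    intro lam hl
    refine (zfc hl).ext _ _ fun z => ⟨?_, ?_⟩
    · revert z
      refine forall_chk (P := fun lam hl z => E hl z (val hl (chk (ι t))))
        (TD.mem (Tm.var 0) (Tm.const _)) (a := ⊤) ?_ hl.top
      intro s hs lam hl _
      rw [ih s hs hl]
      exact E_chk_of (h1 s t hs)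
    · revert z
      refine forall_chk (P := fun lam hl z => E hl z (val hl (chk t)))
        (TD.mem (Tm.var 0) (Tm.const _)) (a := ⊤) ?_ hl.top
      intro s' hs' lam hl _
      obtain ⟨s, hs, rfl⟩ := h2 t s' hs'
      rw [← ih s hs hl]
      exact E_chk_of hs

/-- The name of an ordinal. -/
noncomputable def chO (o : Ordinal.{u}) : BSet D := chkT o.ToType

theorem chO_sub {o p : Ordinal.{u}} (h : o ≤ p) {lam : D → Prop} (hl : IsUF lam) :
    Sub (E hl) (val hl (chO o : BSet D)) (val hl (chO p)) := by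
  refine forall_chkT (P := fun lam hl z => E hl z (val hl (chO p)))
    (TD.mem (Tm.var 0) (Tm.const _)) (a := ⊤) ?_ hl.top
  intro t lam hl _
  rw [val_chk_initial (fun t => Ordinal.initialSegToType h t)
    (fun s t hst => (Ordinal.initialSegToType h).map_rel_iff.2 hst) (fun t s' hs' => by
      obtain ⟨s, rfl⟩ := (Ordinal.initialSegToType h).mem_range_of_rel hs'
      exact ⟨s, (Ordinal.initialSegToType h).map_rel_iff.1 hs', rfl⟩) t hl]
  exact E_chkT _

theorem chO_mem {o p : Ordinal.{u}} (h : o < p) {lam : D → Prop} (hl : IsUF lam) :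
    E hl (val hl (chO o : BSet D)) (val hl (chO p)) := by
  have h1 : val hl (chO o : BSet D) = val hl (chk (Ordinal.principalSegToType h).top) := by
    refine (zfc hl).ext _ _ fun z => ⟨?_, ?_⟩
    · revert z
      refine forall_chkT (P := fun lam hl z => E hl z (val hl (chk (Ordinal.principalSegToType h).top)))
        (TD.mem (Tm.var 0) (Tm.const _)) (a := ⊤) ?_ hl.top
      intro t lam hl _
      rw [val_chk_initial (fun t => Ordinal.principalSegToType h t)
        (fun s t hst => (Ordinal.principalSegToType h).map_rel_iff.2 hst) (fun t s' hs' => by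
          obtain ⟨s, rfl⟩ := (Ordinal.principalSegToType h).mem_range_of_rel hs'
          exact ⟨s, (Ordinal.principalSegToType h).map_rel_iff.1 hs', rfl⟩) t hl]
      exact E_chk_of ((Ordinal.principalSegToType h).lt_top t)
    · revert z
      refine forall_chk (P := fun lam hl z => E hl z (val hl (chO o)))
        (TD.mem (Tm.var 0) (Tm.const _)) (a := ⊤) ?_ hl.top
      intro s' hs' lam hl _
      obtain ⟨s, rfl⟩ := ((Ordinal.principalSegToType h).mem_range_iff_rel).2 hs'
      rw [← val_chk_initial (fun t => Ordinal.principalSegToType h t)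
        (fun s t hst => (Ordinal.principalSegToType h).map_rel_iff.2 hst) (fun t s' hs' => by
          obtain ⟨s, rfl⟩ := (Ordinal.principalSegToType h).mem_range_of_rel hs'
          exact ⟨s, (Ordinal.principalSegToType h).map_rel_iff.1 hs', rfl⟩) s hl]
      exact E_chkT _
  rw [h1]
  exact E_chkT _

/-- Every name of an ordinal is bounded by an ordinal. -/
theorem exists_chO (x : BSet D) : ∃ o : Ordinal.{u}, ∀ (lam : D → Prop) (hl : IsUF lam),
    IsOrd (E hl) (val hl x) → E hl (val hl x) (val hl (chO o)) := by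
  induction x with
  | mk ι f w ih =>
    choose o ho using ih
    refine ⟨Order.succ (⨆ i, o i), fun lam hl hx => ?_⟩
    have h1 : Sub (E hl) (val hl (mk ι f w)) (val hl (chO (⨆ i, o i))) := by
      have key : ∀ z, E hl z (val hl (mk ι f w)) → IsOrd (E hl) z → E hl z (val hl (chO (⨆ i, o i))) := by
        refine forall_mk (P := fun lam hl z => IsOrd (E hl) z → E hl z (val hl (chO (⨆ i, o i))))
          (TD.imp (TD.isOrd (Tm.var 0)) (TD.mem (Tm.var 0) (Tm.const _))) (a := ⊤) ?_ hl.top
        intro i lam hl _ _ hi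
        exact chO_sub (Ordinal.le_iSup o i) hl _ (ho i lam hl hi)
      exact fun z hz => key z hz (hx.mem hz)
    rcases (hx.sub_iff (zfc hl) isOrd_chkT).1 h1 with h2 | h2
    · exact isOrd_chkT.trans (chO_mem (Order.lt_succ _) hl) h2
    · rw [h2]
      exact chO_mem (Order.lt_succ _) hl

/-- A finite ordinal does not contain all natural numbers. -/
theorem not_omega_sub {T : Type u} [LinearOrder T] [WellFoundedLT T] {t : T} (h : Finite (Iio t))
    {lam : D → Prop} (hl : IsUF lam) : ¬ Sub (E hl) (val hl (omB : BSet D)) (val hl (chk t)) := by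
  intro hs
  have h1 : ∀ n : ℕ, ∃ v : Iio t, val hl (natB n : BSet D) = val hl (chk v.1) := by
    intro n
    by_contra hc
    push Not at hc
    have h2 := hs _ (E_omB n)
    rw [chk_eq t, E_nm_iff] at h2
    have h3 : lam (⨅ v : Iio t, (beq (natB n) (chk v.1))ᶜ) := by
      have := Fintype.ofFinite (Iio t)
      have h4 := hl.iInf_finset (Finset.univ : Finset (Iio t)) (fun v => (beq (natB n) (chk v.1))ᶜ)
        (fun v _ => hl.compl_iff.2 fun h5 => hc v (val_eq.2 h5))
      refine hl.mono ?_ h4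
      exact le_iInf fun v => iInf₂_le v (Finset.mem_univ v)
    have h5 := hl.inf h2 h3
    rw [← compl_iSup, inf_compl_eq_bot] at h5
    exact hl.bot h5
  choose v hv using h1
  have hinj : Function.Injective v := by
    intro m n hmn
    have h2 := hv m
    rw [hmn, ← hv n] at h2
    exact val_natB_inj.1 h2
  exact not_injective_infinite_finite v hinj

end BVM

namespace Pool.Agent.W_61ad90

open BVM

/-- `GCH` at `μ` -/
def GCHAt {T : Type*} (E : T → T → Prop) (μ : T) : Prop :=
  ∀ w ν P, IsOmega E w → IsCard E μ → (μ = w ∨ E w μ) → IsSC E μ ν → (∀ x, E x P ↔ Sub E x μ) →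
    Cov E ν P

theorem GCHAt.fo {k : ℕ} (a : Fin k) : FO.{u} (fun _ E v => GCHAt E (v a)) := by
  unfold GCHAt; (repeat' (first | exact IsCard.fo _ | exact IsOmega.fo _ | exact IsSC.fo _ _ | exact Sub.fo _ _ | exact Cov.fo _ _ | exact FO.mem _ _ | exact FO.eq _ _ | apply FO.iff | apply FO.or | apply FO.and | apply FO.imp | apply FO.ex | apply FO.all))

variable {D : Type u} [CompleteBooleanAlgebra D]

/-- The `GCH` clause of `Core61`. -/
def GchD (D : Type u) [CompleteBooleanAlgebra D] : Prop :=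
  ∀ (A : Type u) [LinearOrder A] [WellFoundedLT A], Infinite A →
    ∃ (B : Type u) (_ : LinearOrder B) (_ : WellFoundedLT B) (F : B → A → D),
      (∀ g : A → D, ∀ c : D, c ≠ ⊥ → ∃ (b : D) (i : B), b ≠ ⊥ ∧ b ≤ c ∧ ∀ a, b ⊓ g a = b ⊓ F i a) ∧
      ∀ i : B, ∃ G : A → B → D, CovN G i

/-- The powerset of a well-order is covered. -/
theorem cov_pow {T B : Type u} [LinearOrder T] [WellFoundedLT T] [LinearOrder B] [WellFoundedLT B]
    {t : T} {F : B → Iio t → D}
    (h : ∀ g : Iio t → D, ∀ c : D, c ≠ ⊥ → ∃ (b : D) (i : B), b ≠ ⊥ ∧ b ≤ c ∧ ∀ a, b ⊓ g a = b ⊓ F i a)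
    {lam : D → Prop} (hl : IsUF lam) {P : X hl} (hP : ∀ x, E hl x P → Sub (E hl) x (val hl (chk t))) :
    Cov (E hl) (val hl (chkT B : BSet D)) P := by
  let z : B → BSet D := fun i => mk (Iio t) (fun a => chk a.1) (F i)
  let Φ : BSet D := fnB (fun i : B => chk i) z
  have hΦ : ∀ {lam : D → Prop} (hl : IsUF lam), IsFun (E hl) (val hl Φ) (val hl (chkT B)) := by
    intro lam hl
    refine isFun_fnB fun i j => ?_
    by_cases h : i = j
    · subst h
      rw [beq_refl (z i)]
      exact le_top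
    · rw [beq_chk_ne h]
      exact bot_le
  refine ⟨_, hΦ hl, fun y hy => ?_⟩
  by_contra hc
  have hQ : TD1 (D := D) fun lam hl y => Sub (E hl) y (val hl (chk t)) ∧
      ¬ ∃ x, App (E hl) (val hl Φ) x y := by
    refine TD.and (TD.sub (Tm.var 0) (Tm.const _)) (TD.not ?_)
    exact TD.ex (P := fun lam hl x v => App (E hl) (val hl Φ) x (v 0))
      (TD.app (Tm.const _) (Tm.var 0) (Tm.var 1))
  obtain ⟨Y, hY⟩ := TD.exists_name hQ
  set c : D := TD.b1 hQ Y with hcdef
  have hlc : lam c := (TD.b1_iff hQ).1 (hY lam hl y ⟨hP y hy, hc⟩)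
  have hc0 : c ≠ ⊥ := fun h0 => hl.bot (h0 ▸ hlc)
  obtain ⟨b, i, hb0, hbc, hbi⟩ := h (fun a => bmem (chk a.1) Y) c hc0
  obtain ⟨lam1, hl1, hlam1⟩ := exists_isUF hb0
  obtain ⟨h1, h2⟩ := (TD.b1_iff hQ (hl := hl1)).2 (hl1.mono hbc hlam1)
  have hzi : ∀ a : Iio t, bmem (chk a.1) (z i) = F i a := by
    intro a
    have h1 : bmem (chk a.1) (z i) = ⨆ a' : Iio t, F i a' ⊓ beq (chk a.1) (chk a'.1) := rfl
    rw [h1]
    apply le_antisymm
    · refine iSup_le fun a' => ?_
      by_cases haa : a = a'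
      · rw [haa]
        exact inf_le_left
      · rw [beq_chk_ne fun h => haa (Subtype.ext h), inf_bot_eq]
        exact bot_le
    · refine le_iSup_of_le a ?_
      rw [beq_refl, inf_top_eq]
  have key : ∀ x, E hl1 x (val hl1 (chk t)) → (E hl1 x (val hl1 Y) ↔ E hl1 x (val hl1 (z i))) := by
    refine forall_chk (P := fun lam hl x => (E hl x (val hl Y) ↔ E hl x (val hl (z i))))
      (TD.iff (TD.mem (Tm.var 0) (Tm.const _)) (TD.mem (Tm.var 0) (Tm.const _))) (a := b) ?_ hlam1
    intro a ha lam hl hlam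
    rw [E_val, E_val, hzi ⟨a, ha⟩]
    have h3 := hbi ⟨a, ha⟩
    constructor
    · intro h4
      exact (hl.inf_iff.1 (h3 ▸ hl.inf hlam h4)).2
    · intro h4
      exact (hl.inf_iff.1 (h3 ▸ hl.inf hlam h4)).2
  have hsub : ∀ x, E hl1 x (val hl1 (z i)) → E hl1 x (val hl1 (chk t)) := by
    refine forall_mk (P := fun lam hl x => E hl x (val hl (chk t))) (TD.mem (Tm.var 0) (Tm.const _))
      (a := ⊤) ?_ hl1.top
    intro a lam hl _ _
    exact E_chk_of a.2
  have hYz : val hl1 Y = val hl1 (z i) := (zfc hl1).ext _ _ fun x =>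
    ⟨fun hx => (key x (h1 x hx)).1 hx, fun hx => (key x (hsub x hx)).2 hx⟩
  apply h2
  rw [hYz]
  exact ⟨_, app_fnB_of i⟩

/-- `GCH` at the ordinals `chk t`. -/
theorem gchAt_chk (h : GchD D) {T : Type u} [LinearOrder T] [WellFoundedLT T] (t : T)
    {lam : D → Prop} (hl : IsUF lam) : GCHAt (E hl) (val hl (chk t : BSet D)) := by
  intro w ν P hw hμ hwμ hν hP
  rw [eq_omB hw] at hwμ
  by_cases hfin : Finite (Iio t)
  · exfalso
    refine not_omega_sub hfin hl ?_
    rcases hwμ with h1 | h1
    · rw [h1]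
      exact fun z hz => hz
    · exact fun z hz => hμ.1.trans h1 hz
  · obtain ⟨B, _, _, F, hF, hG⟩ := h (Iio t) (not_finite_iff_infinite.1 hfin)
    have h1 : Cov (E hl) (val hl (chkT B : BSet D)) P := cov_pow hF hl fun x hx => (hP x).1 hx
    refine h1.dom_mono (zfc hl) ?_
    refine hν.sub_of_cov (zfc hl) isOrd_chkT ?_
    refine forall_chkT (P := fun lam hl x => Cov (E hl) (val hl (chk t)) x)
      (TD.cov1 (Tm.const _) (Tm.var 0)) (a := ⊤) ?_ hl.top
    intro i lam hl _
    rw [chk_eq t]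
    exact cov_of_covN (A := Iio t) (fun a a' h => beq_chk_ne fun h' => h (Subtype.ext h')) (hG i) hl

/-- `GCH` in the quotients. -/
theorem gch_X (h : GchD D) {lam : D → Prop} (hl : IsUF lam) : SQR.GCH (E hl) := by
  refine gch_of_cov (zfc hl) fun w μ ν P hw hμ hwμ hν hP => ?_
  obtain ⟨m, rfl⟩ := exists_name μ
  obtain ⟨o, ho⟩ := exists_chO m
  have key : ∀ z, E hl z (val hl (chO o)) → GCHAt (E hl) z := by
    refine forall_chkT (P := fun lam hl z => GCHAt (E hl) z)
      (TD.fo1 (R := fun _ E a => GCHAt E a) (GCHAt.fo 0) (Tm.var 0)) (a := ⊤) ?_ hl.top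
    intro t lam hl _
    exact gchAt_chk h t hl
  exact key _ (ho lam hl hμ.1) w ν P hw hμ hwμ hν hP

end Pool.Agent.W_61ad90
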