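import Pool.Agent.W_61ad90_h32.CardX

/-!
# MP_61ad90_lc : the relation `ω₄ → [ω₂]^ω_ω₂` in the model
-/

universe u

open Cardinal Set HESR IM.BSet SQR
open IM (BSet)

namespace BVM

variable {D : Type u} [CompleteBooleanAlgebra D] {lam : D → Prop} {hl : IsUF lam}

/-- A bijection between the index sets of two injective families of names. -/
theorem isBij_fnB {ι : Type u} {f g : ι → BSet D} (hf : ∀ i j, i ≠ j → beq (f i) (f j) = ⊥)
    (hg : ∀ i j, i ≠ j → beq (g i) (g j) = ⊥) :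
    IsBij (E hl) (val hl (fnB f g)) (val hl (nm f)) (val hl (nm g)) := by
  have hfun : IsFun (E hl) (val hl (fnB f g)) (val hl (nm f)) := by
    refine isFun_fnB fun i j => ?_
    by_cases h : i = j
    · subst h
      rw [beq_refl (g i)]
      exact le_top
    · rw [hf i j h]
      exact bot_le
  refine ⟨⟨hfun, ?_⟩, ?_, ?_⟩
  · intro x y hxy
    exact forall_app_relB (P := fun lam hl x y => E hl y (val hl (nm g)))
      (TD.mem (Tm.var 1) (Tm.const _)) (a := ⊤) (fun i lam hl _ _ => E_nm_of i) hl.top x y hxy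
  · intro x y z hx hy
    refine forall_app_relB (f := f) (g := g) (w := fun _ => ⊤) (P := fun lam hl x z =>
      ∀ y, App (E hl) (val hl (fnB f g)) y z → x = y)
      ?_ (a := ⊤) ?_ hl.top x z hx y hy
    · exact TD.all (P := fun lam hl y v => App (E hl) (val hl (fnB f g)) y (v 1) → v 0 = y)
        (TD.imp (TD.app (Tm.const _) (Tm.var 0) (Tm.var 2)) (TD.eq (Tm.var 1) (Tm.var 0)))
    · intro i lam hl _ _ y hy
      have key : ∀ y z, App (E hl) (val hl (fnB f g)) y z → z = val hl (g i) → val hl (f i) = y := by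
        refine forall_app_relB (P := fun lam hl y z => z = val hl (g i) → val hl (f i) = y) ?_
          (a := ⊤) ?_ hl.top
        · exact TD.imp (TD.eq (Tm.var 1) (Tm.const _)) (TD.eq (Tm.const _) (Tm.var 0))
        · intro j lam hl _ _ he
          by_cases hij : j = i
          · rw [hij]
          · rw [val_eq, hg j i hij] at he
            exact (hl.bot he).elim
      exact key _ _ hy rfl
  · refine forall_nm (P := fun lam hl y => ∃ x, App (E hl) (val hl (fnB f g)) x y)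
      (TD.ex (P := fun lam hl x v => App (E hl) (val hl (fnB f g)) x (v 0))
        (TD.app (Tm.const _) (Tm.var 0) (Tm.var 1))) (a := ⊤) (fun i lam hl _ => ⟨_, app_fnB_of i⟩)
      hl.top

theorem TD.isBij {k : ℕ} {f g l : ∀ (lam : D → Prop) (hl : IsUF lam), (Fin k → X hl) → X hl}
    (hf : Tm f) (hg : Tm g) (hl' : Tm l) :
    TD fun lam hl v => IsBij (E hl) (f lam hl v) (g lam hl v) (l lam hl v) :=
  TD.fo3 (R := fun _ E a b c => IsBij E a b c) (IsBij.fo 0 1 2) hf hg hl'

end BVM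

namespace Pool.Agent.W_61ad90

open BVM

variable {W K2 K3 K4 D : Type u} [LinearOrder W] [LinearOrder K2] [LinearOrder K3]
  [LinearOrder K4] [WellFoundedLT K2] [WellFoundedLT K4]
  [CompleteBooleanAlgebra D]

/-- the name of the range of `e` -/
noncomputable def seqB (e : ℕ → K4) : BSet D := nm (ι := ULift.{u} ℕ) fun n => chk (e n.down)

theorem eqp_seqB {e : ℕ → K4} (he : Function.Injective e) {lam : D → Prop} (hl : IsUF lam) :
    Eqp (E hl) (val hl omB) (val hl (seqB e : BSet D)) :=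
  ⟨_, isBij_fnB (f := fun n : ULift.{u} ℕ => natB n.down)
    (fun _ _ h => beq_natB_ne fun h' => h (ULift.ext _ _ h'))
    (fun _ _ h => beq_chk_ne fun h' => h (ULift.ext _ _ (he h')))⟩

theorem seqB_sub {e : ℕ → K4} {lam : D → Prop} (hl : IsUF lam) :
    Sub (E hl) (val hl (seqB e : BSet D)) (val hl (chkT K4)) :=
  forall_nm (P := fun lam hl z => E hl z (val hl (chkT K4))) (TD.mem (Tm.var 0) (Tm.const _)) (a := ⊤)
    (fun n _ _ _ => E_chkT (e n.down)) hl.top

/-- bad colourings -/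
def BadCol {T : Type*} (E : T → T → Prop) (f A B : T) : Prop :=
  IsCol E f A B ∧ ∀ H, Sub E H A → Eqp E B H → ∀ c, E c B → ∃ y, Sub E y H ∧ App E f y c

theorem BadCol.fo {k : ℕ} (a b c : Fin k) : FO.{u} (fun _ E v => BadCol E (v a) (v b) (v c)) := by
  unfold BadCol; (repeat' (first | exact IsCol.fo _ _ _ | exact App.fo _ _ _ | exact Sub.fo _ _ | exact Eqp.fo _ _ | exact FO.mem _ _ | apply FO.iff | apply FO.and | apply FO.imp | apply FO.ex | apply FO.all))

/-- a colouring is defined at the countable sets -/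
theorem IsCol.ex {T : Type*} {E : T → T → Prop} (hZ : IsZFC E) {f A B w y : T} (h : IsCol E f A B)
    (hw : IsOmega E w) (hy : Sub E y A) (hc : Eqp E w y) : ∃ z, E z B ∧ App E f y z := by
  obtain ⟨w', Y, hw', hY, hf⟩ := h
  obtain rfl := hw.uniq hZ hw'
  obtain ⟨z, hz⟩ := hf.1.ex ((hY y).2 ⟨hy, hc⟩)
  exact ⟨z, hf.2 _ _ hz, hz⟩

theorem IsCol.eqp {T : Type*} {E : T → T → Prop} (hZ : IsZFC E) {f A B w y z : T} (h : IsCol E f A B)
    (hw : IsOmega E w) (hy : App E f y z) : Eqp E w y := by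
  obtain ⟨w', Y, hw', hY, hf⟩ := h
  obtain rfl := hw.uniq hZ hw'
  exact ((hY y).1 (hf.1.dom hZ hy)).2

theorem IsCol.val {T : Type*} {E : T → T → Prop} (hZ : IsZFC E) {f A B y z z' : T} (h : IsCol E f A B)
    (hz : App E f y z) (hz' : App E f y z') : z = z' := by
  obtain ⟨w', Y, hw', hY, hf⟩ := h
  exact hf.1.val hZ hz hz'

/-- The relation `K4 → [K2]^ω_K2` in the quotients. -/
theorem not_negRel (h : Core61 W K2 K3 K4 D) {lam : D → Prop} (hl : IsUF lam) :
    ¬ NegRel (E hl) (val hl (chkT K4 : BSet D)) (val hl (chkT K2 : BSet D)) := by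
  intro hneg
  have hT : TD1 (D := D) fun lam hl f => BadCol (E hl) f (val hl (chkT K4)) (val hl (chkT K2)) :=
    TD.fo3 (R := fun _ E a b c => BadCol E a b c) (BadCol.fo 0 1 2) (Tm.var 0) (Tm.const _)
      (Tm.const _)
  obtain ⟨F, hF⟩ := TD.exists_name hT
  set c : D := TD.b1 hT F with hcdef
  have hlc : lam c := by
    obtain ⟨f, hf⟩ := hneg
    exact (TD.b1_iff hT).1 (hF lam hl f hf)
  have hc0 : c ≠ ⊥ := fun h0 => hl.bot (h0 ▸ hlc)
  have hbad : ∀ {lam : D → Prop} (hl : IsUF lam), lam c →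
      BadCol (E hl) (val hl F) (val hl (chkT K4)) (val hl (chkT K2)) :=
    fun hl hlam => (TD.b1_iff hT (hl := hl)).2 hlam
  have hA : ∀ y : BSet D, TD1 (D := D) fun lam hl z => App (E hl) (val hl F) (val hl y) z :=
    fun y => TD.app (Tm.const _) (Tm.const _) (Tm.var 0)
  let g : (ℕ → K4) → K2 → D := fun e x => TD.b1 (hA (seqB e)) (chk x)
  have hne := h.ne2
  obtain ⟨b, H, δ, hb0, hbc, ⟨ε⟩, hbH⟩ := h.rel (fun e x => g e x ⊔ cᶜ) (by
      intro e he
      rw [← iSup_sup, eq_top_iff, ← sup_compl_eq_top (x := c)]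
      refine sup_le_sup_right ?_ _
      rw [le_iff_ultra]
      intro lam hl hlam
      refine (exists_chkT_iff (hl := hl) (hA (seqB e))).1 ?_
      exact IsCol.ex (zfc hl) (hbad hl hlam).1 isOmega_omB (seqB_sub hl) (eqp_seqB he hl)) c hc0
  -- the homogeneous set
  let Hn : BSet D := nm fun x : K2 => chk ((ε.symm x).1 : K4)
  have hH1 : ∀ {lam : D → Prop} (hl : IsUF lam), Sub (E hl) (val hl Hn) (val hl (chkT K4)) := by
    intro lam hl
    exact forall_nm (P := fun lam hl z => E hl z (val hl (chkT K4))) (TD.mem (Tm.var 0) (Tm.const _))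
      (a := ⊤) (fun n lam hl _ => E_chkT _) hl.top
  have hH2 : ∀ {lam : D → Prop} (hl : IsUF lam), Eqp (E hl) (val hl (chkT K2)) (val hl Hn) := by
    intro lam hl
    exact ⟨_, isBij_fnB (f := fun x : K2 => chk x) (g := fun x : K2 => chk ((ε.symm x).1 : K4))
      (fun i j h => beq_chk_ne h) (fun i j h => beq_chk_ne fun h' =>
        h (ε.symm.injective (Subtype.ext h')))⟩
  -- the name of an enumeration of a set of colour `δ`
  have hQ : TD1 (D := D) fun lam hl g => ∃ y, Sub (E hl) y (val hl Hn) ∧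
      App (E hl) (val hl F) y (val hl (chk δ)) ∧ IsBij (E hl) g (val hl omB) y := by
    refine TD.ex (P := fun lam hl y v => Sub (E hl) y (val hl Hn) ∧
      App (E hl) (val hl F) y (val hl (chk δ)) ∧ IsBij (E hl) (v 0) (val hl omB) y) ?_
    exact TD.and (TD.sub (Tm.var 0) (Tm.const _)) (TD.and (TD.app (Tm.const _) (Tm.var 0) (Tm.const _))
      (TD.isBij (Tm.var 1) (Tm.const _) (Tm.var 0)))
  obtain ⟨G, hG⟩ := TD.exists_name hQ
  have hGb : b ≤ TD.b1 hQ G := by
    rw [TD.le_b1]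
    intro lam hl hlam
    have h1 := hbad hl (hl.mono hbc hlam)
    obtain ⟨y, hy1, hy2⟩ := h1.2 (val hl Hn) (hH1 hl) (hH2 hl) (val hl (chk δ)) (E_chkT δ)
    obtain ⟨g, hg⟩ := IsCol.eqp (zfc hl) h1.1 isOmega_omB hy2
    exact hG lam hl g ⟨y, hy1, hy2, hg⟩
  have hR : ∀ n : ℕ, TD1 (D := D) fun lam hl z => App (E hl) (val hl G) (val hl (natB n)) z :=
    fun n => TD.app (Tm.const _) (Tm.const _) (Tm.var 0)
  obtain ⟨d, e, hd0, hdb, hde⟩ := h.dist K2
    (fun n x => TD.b1 (hR n) (chk ((ε.symm x).1 : K4)) ⊔ bᶜ) (by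
      intro n
      rw [← iSup_sup, eq_top_iff, ← sup_compl_eq_top (x := b)]
      refine sup_le_sup_right ?_ _
      rw [le_iff_ultra]
      intro lam hl hlam
      refine (exists_nm_iff (hl := hl) (hR n)).1 ?_
      obtain ⟨y, hy1, hy2, hy3⟩ := (TD.b1_iff hQ (hl := hl)).2 (hl.mono hGb hlam)
      obtain ⟨z, hz⟩ := hy3.1.1.ex (E_omB n)
      exact ⟨z, hy1 z (hy3.1.2 _ _ hz), hz⟩) b hb0
  let e' : ℕ → K4 := fun n => (ε.symm (e n)).1
  have hde' : ∀ {lam : D → Prop} (hl : IsUF lam), lam d → ∀ n,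
      App (E hl) (val hl G) (val hl (natB n)) (val hl (chk (e' n))) := by
    intro lam hl hlam n
    refine (TD.b1_iff (hR n) (hl := hl)).2 ?_
    rcases (hl.sup_iff).1 (hl.mono (hde n) hlam) with h1 | h1
    · exact h1
    · exact ((hl.compl_iff.1 h1) (hl.mono hdb hlam)).elim
  obtain ⟨lam1, hl1, hlam1⟩ := exists_isUF hd0
  obtain ⟨y, hy1, hy2, hy3⟩ := (TD.b1_iff hQ (hl := hl1)).2 (hl1.mono (hdb.trans hGb) hlam1)
  have he : Function.Injective e' := by
    intro m n hmn
    have h1 := hde' hl1 hlam1 m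
    rw [hmn] at h1
    exact val_natB_inj.1 (hy3.2.1 _ _ _ h1 (hde' hl1 hlam1 n))
  -- the set of colour `δ` is the range of `e'`
  have hye : y = val hl1 (seqB e') := by
    refine (zfc hl1).ext _ _ fun z => ⟨fun hz => ?_, fun hz => ?_⟩
    · obtain ⟨x, hx⟩ := hy3.2.2 z hz
      have hxω := hy3.1.1.dom (zfc hl1) hx
      have key : ∀ x, E hl1 x (val hl1 omB) → ∀ z, App (E hl1) (val hl1 G) x z →
          E hl1 z (val hl1 (seqB e')) := by
        refine forall_omB (P := fun lam hl x => ∀ z, App (E hl) (val hl G) x z →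
          E hl z (val hl (seqB e'))) ?_ (a := d) ?_ hlam1
        · exact TD.all (P := fun lam hl z v => App (E hl) (val hl G) (v 0) z →
            E hl z (val hl (seqB e'))) (TD.imp (TD.app (Tm.const _) (Tm.var 1) (Tm.var 0))
              (TD.mem (Tm.var 0) (Tm.const _)))
        · intro n lam hl hlam z hz
          obtain ⟨y', _, _, hy3'⟩ := (TD.b1_iff hQ (hl := hl)).2 (hl.mono (hdb.trans hGb) hlam)
          rw [hy3'.1.1.val (zfc hl) hz (hde' hl hlam n)]
          exact E_nm_of (f := fun n : ULift.{u} ℕ => (chk (e' n.down) : BSet D)) ⟨n⟩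
      exact key x hxω z hx
    · have key : ∀ z, E hl1 z (val hl1 (seqB e')) → ∃ x, App (E hl1) (val hl1 G) x z := by
        refine forall_nm (P := fun lam hl z => ∃ x, App (E hl) (val hl G) x z) ?_ (a := d) ?_ hlam1
        · exact TD.ex (P := fun lam hl x v => App (E hl) (val hl G) x (v 0))
            (TD.app (Tm.const _) (Tm.var 0) (Tm.var 1))
        · intro n lam hl hlam
          exact ⟨_, hde' hl hlam n.down⟩
      obtain ⟨x, hx⟩ := key z hz
      exact hy3.1.2 _ _ hx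
  rw [hye] at hy2
  -- the colour is below `δ`
  have h1 := hbad hl1 (hl1.mono (hdb.trans hbc) hlam1)
  have h2 : lam1 (⨆ x : Iio δ, TD.b1 (hA (seqB e')) (chk x.1)) := by
    have h3 := hl1.mono (hdb.trans (hbH e' he fun n => (ε.symm (e n)).2)) hlam1
    rw [show (⨆ x : Iio δ, g e' x.1 ⊔ cᶜ) = ⨆ x : Iio δ, TD.b1 (hA (seqB e')) (chk x.1) ⊔ cᶜ
      from rfl] at h3
    have h4 : (⨆ x : Iio δ, TD.b1 (hA (seqB e')) (chk x.1) ⊔ cᶜ) ≤
        (⨆ x : Iio δ, TD.b1 (hA (seqB e')) (chk x.1)) ⊔ cᶜ :=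
      iSup_le fun x => sup_le_sup_right (le_iSup (fun x : Iio δ => TD.b1 (hA (seqB e')) (chk x.1)) x) _
    rcases hl1.sup_iff.1 (hl1.mono h4 h3) with h5 | h5
    · exact h5
    · exact ((hl1.compl_iff.1 h5) (hl1.mono (hdb.trans hbc) hlam1)).elim
  obtain ⟨z, hz1, hz2⟩ := (exists_chk_iff (hA (seqB e'))).2 h2
  rw [IsCol.val (zfc hl1) h1.1 hz2 hy2] at hz1
  exact (zfc hl1).irrefl _ hz1

/-- The relation in the quotients. -/
theorem posRel_X [WellFoundedLT W] [WellFoundedLT K3] (h : Core61 W K2 K3 K4 D) {lam : D → Prop}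
    (hl : IsUF lam) : PosRel (E hl) ∧ PosRel4 (E hl) := pos_X h hl (not_negRel h hl)

end Pool.Agent.W_61ad90
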