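import Pool.Agent.W_315f31_h40.Final0
import Pool.Agent.W_61ad90_h32.RelX
import Pool.Agent.W_61ad90_h32.GCHX

/-!
# MP_61ad90_lc : the countable well-founded model, from the properties `Core61` of the forcing
-/

universe u

open Cardinal Set HESR IM.BSet SQR
open IM (BSet)

namespace Pool.Agent.W_61ad90

open BVM

/-- The properties of the forcing give a countable well-founded model. -/
theorem model_of_core61 {W K2 K3 K4 D : Type u} [LinearOrder W] [LinearOrder K2] [LinearOrder K3]
    [LinearOrder K4] [WellFoundedLT W] [WellFoundedLT K2] [WellFoundedLT K3] [WellFoundedLT K4]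
    [CompleteBooleanAlgebra D] [Nontrivial D] (h : Core61 W K2 K3 K4 D) :
    ∃ (M : Type (u + 1)) (E : M → M → Prop), Countable M ∧ WellFounded E ∧ HESR.IsZFC E ∧
      SQR.GCH E ∧ PosRel E ∧ PosRel4 E := by
  obtain ⟨N, hNc, _, hW, hN⟩ := exists_names_closed (D := D) (fun x _ => x) omB
  obtain ⟨lam, hl, _, hwf⟩ := exists_wf (D := D) (a := ⊤) top_ne_bot N hNc
  have hM : Countable (Mdl hl N) := by
    have h1 : Countable N := hNc.to_subtype
    have h2 : Function.Surjective fun z : N => (⟨val hl z.1, z.1, z.2, rfl⟩ : Mdl hl N) := by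
      rintro ⟨x, z, hz, rfl⟩
      exact ⟨⟨z, hz⟩, rfl⟩
    exact h2.countable
  have h1 := posRel_X h hl
  refine ⟨Mdl hl N, EM hl N, hM, hwf, zfc_mdl hl N hN, ?_, ?_, ?_⟩
  · exact (fo_transfer hN (SQR.GCH.fo (k := 0)) Fin.elim0).2 (gch_X h.gch hl)
  · exact (fo_transfer hN (PosRel.fo (k := 0)) Fin.elim0).2 h1.1
  · exact (fo_transfer hN (PosRel4.fo (k := 0)) Fin.elim0).2 h1.2

end Pool.Agent.W_61ad90
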