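import Pool.Agent.W_MP_315f31_lc.C.StmtFO

set_option autoImplicit false

/-!
# MP_61ad90_lc : the notions of the statement

Bijections, successor cardinals, `GCH`, `ℵ_ω`, the square-bracket relation with exponent `ω`, in a
structure `(T, E)`.
-/

namespace SQR
open HESR
universe u

section defs
variable {T : Type u} (E : T → T → Prop)

/-- `f` is a bijection from `a` onto `b` -/
def IsBij (f a b : T) : Prop :=
  Maps E f a b ∧ (∀ x y z, App E f x z → App E f y z → x = y) ∧ ∀ y, E y b → ∃ x, App E f x y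

/-- `a` and `b` have the same cardinality -/
def Eqp (a b : T) : Prop := ∃ f, IsBij E f a b

/-- `ν` is the least cardinal greater than `μ` -/
def IsSC (μ ν : T) : Prop :=
  IsCard E ν ∧ E μ ν ∧ ∀ ρ, E ρ ν → IsCard E ρ → E ρ μ ∨ ρ = μ

/-- the generalized continuum hypothesis: for every infinite cardinal `μ` the powerset of `μ` has the
cardinality `μ⁺` -/
def GCH : Prop :=
  ∀ w μ ν P, IsOmega E w → IsCard E μ → (μ = w ∨ E w μ) → IsSC E μ ν → (∀ x, E x P ↔ Sub E x μ) →
    Eqp E P ν

/-- `A` is an uncountable limit cardinal: an ordinal which contains `ω` and with every element `μ` a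
cardinal greater than `μ` -/
def IsLC (A : T) : Prop :=
  IsOrd E A ∧ (∃ w, IsOmega E w ∧ E w A) ∧ ∀ μ, E μ A → ∃ ν, E ν A ∧ IsCard E ν ∧ E μ ν

/-- `A = ℵ_ω` : the least uncountable limit cardinal -/
def IsAlephOmega (A : T) : Prop := IsLC E A ∧ ∀ B, E B A → ¬ IsLC E B

/-- `f` is a colouring of `[A]^ω` (the set of all subsets of `A` of the cardinality `ω`) with colours
in `B` -/
def IsCol (f A B : T) : Prop :=
  ∃ w Y, IsOmega E w ∧ (∀ y, E y Y ↔ Sub E y A ∧ Eqp E w y) ∧ Maps E f Y B

/-- `A ↛ [B]^ω_B` : there is a colouring of `[A]^ω` with colours in `B` such that every subset `H` of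
`A` of the cardinality of `B` contains sets of every colour -/
def NegRel (A B : T) : Prop :=
  ∃ f, IsCol E f A B ∧ ∀ H, Sub E H A → Eqp E B H → ∀ c, E c B → ∃ y, Sub E y H ∧ App E f y c

/-- `ℵ_(ω+1) → [ℵ₂]^ω_ℵ₂` -/
def PosRel : Prop :=
  ∀ w w1 w2 a A, IsOmega E w → IsSC E w w1 → IsSC E w1 w2 → IsAlephOmega E a → IsSC E a A →
    ¬ NegRel E A w2

/-- `ℵ₄ → [ℵ₂]^ω_ℵ₂` -/
def PosRel4 : Prop :=
  ∀ w w1 w2 w3 w4, IsOmega E w → IsSC E w w1 → IsSC E w1 w2 → IsSC E w2 w3 → IsSC E w3 w4 →
    ¬ NegRel E w4 w2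

end defs

/-! ### The large cardinal -/

/-- `U` is a fine normal `κ`-complete ultrafilter on the set of the subsets of `A` of size less than `κ` -/
structure IsFNU (κ : Cardinal.{u}) {A : Type u} (U : Ultrafilter (Set A)) : Prop where
  small : {x : Set A | Cardinal.mk x < κ} ∈ U
  fine : ∀ a : A, {x : Set A | a ∈ x} ∈ U
  complete : ∀ S : Set (Set (Set A)), Cardinal.mk S < κ → (∀ s ∈ S, s ∈ U) → ⋂₀ S ∈ U
  normal : ∀ f : Set A → A, {x | f x ∈ x} ∈ U → ∃ a, {x | f x = a} ∈ U

/-- `κ` is inaccessible and `κ⁺⁺`-supercompact: there is a fine normal `κ`-complete ultrafilter on the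
set of the subsets of `κ⁺⁺` of size less than `κ` -/
def IsSC2 (κ : Cardinal.{u}) : Prop :=
  κ.IsInaccessible ∧ ∃ (A : Type u) (U : Ultrafilter (Set A)),
    Cardinal.mk A = Order.succ (Order.succ κ) ∧ IsFNU κ U

/-! ### The notions are uniformly first-order -/

section fo
variable {k : ℕ}

theorem IsBij.fo (a b c : Fin k) : FO.{u} (fun _ E v => IsBij E (v a) (v b) (v c)) := by
  unfold IsBij; (repeat' (first | exact Maps.fo _ _ _ | exact App.fo _ _ _ | exact FO.mem _ _ | exact FO.eq _ _ | apply FO.and | apply FO.imp | apply FO.ex | apply FO.all))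

theorem Eqp.fo (a b : Fin k) : FO.{u} (fun _ E v => Eqp E (v a) (v b)) := by
  unfold Eqp; (repeat' (first | exact IsBij.fo _ _ _ | apply FO.ex))

theorem IsSC.fo (a b : Fin k) : FO.{u} (fun _ E v => IsSC E (v a) (v b)) := by
  unfold IsSC; (repeat' (first | exact IsCard.fo _ | exact FO.mem _ _ | exact FO.eq _ _ | apply FO.or | apply FO.and | apply FO.imp | apply FO.ex | apply FO.all))

theorem GCH.fo : FO.{u} (fun _ E (_ : Fin k → _) => GCH E) := by
  unfold GCH; (repeat' (first | exact IsCard.fo _ | exact IsOmega.fo _ | exact IsSC.fo _ _ | exact Sub.fo _ _ | exact Eqp.fo _ _ | exact FO.mem _ _ | exact FO.eq _ _ | apply FO.iff | apply FO.or | apply FO.and | apply FO.imp | apply FO.ex | apply FO.all))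

theorem IsLC.fo (a : Fin k) : FO.{u} (fun _ E v => IsLC E (v a)) := by
  unfold IsLC; (repeat' (first | exact IsCard.fo _ | exact IsOrd.fo _ | exact IsOmega.fo _ | exact FO.mem _ _ | exact FO.eq _ _ | apply FO.or | apply FO.and | apply FO.imp | apply FO.ex | apply FO.all))

theorem IsAlephOmega.fo (a : Fin k) : FO.{u} (fun _ E v => IsAlephOmega E (v a)) := by
  unfold IsAlephOmega; (repeat' (first | exact IsLC.fo _ | exact FO.mem _ _ | apply FO.not | apply FO.and | apply FO.imp | apply FO.ex | apply FO.all))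

theorem IsCol.fo (a b c : Fin k) : FO.{u} (fun _ E v => IsCol E (v a) (v b) (v c)) := by
  unfold IsCol; (repeat' (first | exact IsOmega.fo _ | exact Maps.fo _ _ _ | exact Sub.fo _ _ | exact Eqp.fo _ _ | exact FO.mem _ _ | apply FO.iff | apply FO.and | apply FO.imp | apply FO.ex | apply FO.all))

theorem NegRel.fo (a b : Fin k) : FO.{u} (fun _ E v => NegRel E (v a) (v b)) := by
  unfold NegRel; (repeat' (first | exact IsCol.fo _ _ _ | exact App.fo _ _ _ | exact Sub.fo _ _ | exact Eqp.fo _ _ | exact FO.mem _ _ | apply FO.iff | apply FO.and | apply FO.imp | apply FO.ex | apply FO.all))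

theorem PosRel.fo : FO.{u} (fun _ E (_ : Fin k → _) => PosRel E) := by
  unfold PosRel; (repeat' (first | exact IsOmega.fo _ | exact IsSC.fo _ _ | exact IsAlephOmega.fo _ | exact NegRel.fo _ _ | apply FO.not | apply FO.imp | apply FO.all))

theorem PosRel4.fo : FO.{u} (fun _ E (_ : Fin k → _) => PosRel4 E) := by
  unfold PosRel4; (repeat' (first | exact IsOmega.fo _ | exact IsSC.fo _ _ | exact NegRel.fo _ _ | apply FO.not | apply FO.imp | apply FO.all))

end fo

/-! ### Definability with parameters -/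

section df
variable {N : Type u} {E : N → N → Prop} {k : ℕ}

theorem IsBij.df {f g l : (Fin k → N) → N} (hf : DefFun E f) (hg : DefFun E g) (hl : DefFun E l) :
    Def E (fun v => IsBij E (f v) (g v) (l v)) :=
  Def.fo3 (R := fun _ E a b c => IsBij E a b c) (IsBij.fo 0 1 2) hf hg hl

theorem Eqp.df {f g : (Fin k → N) → N} (hf : DefFun E f) (hg : DefFun E g) :
    Def E (fun v => Eqp E (f v) (g v)) :=
  Def.fo2 (R := fun _ E a b => Eqp E a b) (Eqp.fo 0 1) hf hg

theorem IsSC.df {f g : (Fin k → N) → N} (hf : DefFun E f) (hg : DefFun E g) :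
    Def E (fun v => IsSC E (f v) (g v)) :=
  Def.fo2 (R := fun _ E a b => IsSC E a b) (IsSC.fo 0 1) hf hg

theorem IsLC.df {f : (Fin k → N) → N} (hf : DefFun E f) :
    Def E (fun v => IsLC E (f v)) :=
  Def.fo1 (R := fun _ E a => IsLC E a) (IsLC.fo 0) hf

end df

end SQR
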